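import Mathlib

set_option autoImplicit false

/-!
The lower bound for multiplicity-`p` intersection representations of complete multipartite graphs.
-/

namespace Pool.Agent.Z45.PM

open Finset

theorem sum_card_bound {ι T : Type} [DecidableEq ι] [DecidableEq T] (S : ι → Finset T) (r : ℕ)
    (hr : ∀ a b, a ≠ b → (S a ∩ S b).card ≤ r) (s : Finset ι) :
    2 * ∑ a ∈ s, (S a).card ≤ 2 * (s.biUnion S).card + r * (s.card * (s.card - 1)) := by
  induction s using Finset.induction_on with
  | empty => simp
  | insert a s ha ih =>
    rw [sum_insert ha, biUnion_insert, card_insert_of_notMem ha]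
    have h1 := card_union_add_card_inter (S a) (s.biUnion S)
    have h2 : (S a ∩ s.biUnion S).card ≤ s.card * r := by
      rw [inter_biUnion]
      refine card_biUnion_le.trans ?_
      rw [← smul_eq_mul]
      refine sum_le_card_nsmul _ _ _ ?_
      intro b hb
      exact hr a b (fun h => ha (h ▸ hb))
    have h3 : s.card + 1 - 1 = s.card := rfl
    rw [h3]
    rcases Nat.eq_zero_or_pos s.card with h0 | h0
    · rw [h0] at ih h2 ⊢
      simp only [zero_mul, mul_zero, zero_add, Nat.le_zero] at ih h2 ⊢
      omega
    · obtain ⟨c, hc⟩ := Nat.exists_eq_succ_of_ne_zero h0.ne'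
      rw [hc] at ih h2 ⊢
      have h4 : c.succ - 1 = c := rfl
      rw [h4] at ih
      have h5 : r * ((c.succ + 1) * c.succ) = r * (c.succ * c) + 2 * (c.succ * r) := by
        rw [Nat.succ_eq_add_one]
        ring
      rw [h5]
      omega

/-- two sets that are small on average -/
theorem exists_two_small {n : ℕ} (hn : 2 ≤ n) (c : Fin n → ℕ) :
    ∃ a b, a ≠ b ∧ n * (c a + c b) ≤ 2 * ∑ x, c x := by
  obtain ⟨a, -, ha⟩ := exists_min_image (univ : Finset (Fin n)) c ⟨⟨0, by omega⟩, mem_univ _⟩
  have hcard : (univ.erase a).card = n - 1 := by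
    rw [card_erase_of_mem (mem_univ _), card_univ, Fintype.card_fin]
  obtain ⟨b, hb, hmin⟩ := exists_min_image (univ.erase a) c (by
    rw [← card_pos, hcard]
    omega)
  refine ⟨a, b, (ne_of_mem_erase hb).symm, ?_⟩
  have h1 : c a + ∑ x ∈ univ.erase a, c x = ∑ x, c x := add_sum_erase _ _ (mem_univ a)
  have h2 : (n - 1) * c b ≤ ∑ x ∈ univ.erase a, c x := by
    rw [← hcard, ← smul_eq_mul]
    exact card_nsmul_le_sum _ _ _ hmin
  have h3 : c a ≤ c b := ha b (mem_univ _)
  obtain ⟨m, rfl⟩ := Nat.exists_eq_add_of_le hn
  rw [← h1]
  have h4 : 2 + m - 1 = m + 1 := by omega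
  rw [h4] at h2
  nlinarith

/-- the set-pair inequality -/
theorem set_pair {T : Type} [Fintype T] [DecidableEq T] {k w : ℕ} (A B : Fin k → Finset T)
    (hd : ∀ l, Disjoint (A l) (B l)) (hw : ∀ l, (A l).card + (B l).card ≤ w)
    (hAB : ∀ l m, l ≠ m → (A l ∩ B m).Nonempty) : k ≤ 2 ^ w := by
  classical
  by_cases hwt : w ≤ Fintype.card T
  · -- the sets containing `A l` and missing `B l`
    set F : Fin k → Finset (Finset T) := fun l =>
      univ.filter fun X => A l ⊆ X ∧ Disjoint X (B l) with hF
    have hdisj : ∀ l ∈ (univ : Finset (Fin k)), ∀ m ∈ (univ : Finset (Fin k)), l ≠ m →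
        Disjoint (F l) (F m) := by
      intro l _ m _ hlm
      rw [disjoint_left]
      intro X h1 h2
      rw [hF] at h1 h2
      simp only [mem_filter, mem_univ, true_and] at h1 h2
      obtain ⟨x, hx⟩ := hAB l m hlm
      rw [mem_inter] at hx
      exact disjoint_left.1 h2.2 (h1.1 hx.1) hx.2
    have hcard : ∀ l ∈ (univ : Finset (Fin k)), 2 ^ (Fintype.card T - w) ≤ (F l).card := by
      intro l _
      have h1 : (univ \ (A l ∪ B l)).powerset.card ≤ (F l).card := by
        refine card_le_card_of_injOn (fun Y => A l ∪ Y) ?_ ?_
        · intro Y hY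
          rw [mem_coe, mem_powerset] at hY
          rw [mem_coe, hF]
          simp only [mem_filter, mem_univ, true_and]
          refine ⟨subset_union_left, ?_⟩
          rw [disjoint_union_left]
          refine ⟨hd l, ?_⟩
          rw [disjoint_left]
          intro x hx hxB
          have := hY hx
          rw [mem_sdiff, mem_union] at this
          exact this.2 (Or.inr hxB)
        · intro Y hY Y' hY' h
          rw [mem_coe, mem_powerset] at hY hY'
          have key : ∀ Z : Finset T, Z ⊆ univ \ (A l ∪ B l) → (A l ∪ Z) \ A l = Z := by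
            intro Z hZ
            rw [union_sdiff_left, Finset.sdiff_eq_self_iff_disjoint, disjoint_left]
            intro x hx hxA
            have := hZ hx
            rw [mem_sdiff, mem_union] at this
            exact this.2 (Or.inl hxA)
          rw [← key Y hY, ← key Y' hY', show A l ∪ Y = A l ∪ Y' from h]
      refine le_trans ?_ h1
      rw [card_powerset, card_sdiff_of_subset (subset_univ _), card_univ]
      refine Nat.pow_le_pow_right (by norm_num) ?_
      have h2 := card_union_le (A l) (B l)
      have h3 := hw l
      omega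
    have h1 : k * 2 ^ (Fintype.card T - w) ≤ 2 ^ Fintype.card T := by
      have h2 : (univ.biUnion F).card = ∑ l, (F l).card := card_biUnion hdisj
      have h3 : (univ.biUnion F).card ≤ 2 ^ Fintype.card T := by
        refine (card_le_univ _).trans ?_
        rw [Fintype.card_finset]
      have h4 : k * 2 ^ (Fintype.card T - w) ≤ ∑ l, (F l).card := by
        have := card_nsmul_le_sum (univ : Finset (Fin k)) (fun l => (F l).card) _ hcard
        rw [card_univ, Fintype.card_fin, smul_eq_mul] at this
        exact this
      omega
    have h5 : (2 : ℕ) ^ Fintype.card T = 2 ^ w * 2 ^ (Fintype.card T - w) := by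
      rw [← pow_add]
      congr 1
      omega
    rw [h5] at h1
    exact Nat.le_of_mul_le_mul_right h1 (pow_pos (by norm_num) _)
  · -- the pairs are different, so there are few of them
    have hinj : Function.Injective A := by
      intro l m hlm
      by_contra hne
      obtain ⟨x, hx⟩ := hAB l m hne
      rw [mem_inter, hlm] at hx
      exact disjoint_left.1 (hd m) hx.1 hx.2
    have h1 := Fintype.card_le_of_injective A hinj
    rw [Fintype.card_fin, Fintype.card_finset] at h1
    exact h1.trans (Nat.pow_le_pow_right (by norm_num) (by omega))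

end Pool.Agent.Z45.PM
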