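import Mathlib

set_option autoImplicit false

/-!
Colourings of sets of words whose colour classes are codes: linking blocks by the first and the
last difference.
-/

namespace Pool.Agent.Z45.PM

open Finset

/-- at some position `x` has the letter `e.1` and `y` has the letter `e.2` -/
def Hit {n : ℕ} {ι : Type} (e : Fin n × Fin n) (x y : ι → Fin n) : Prop :=
  ∃ i, x i = e.1 ∧ y i = e.2

/-- any two different elements with the same colour hit all pairs in `S` -/
def Proper {n : ℕ} {X ι K : Type} (φ : X → ι → Fin n) (S : Finset (Fin n × Fin n)) (c : X → K) :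
    Prop :=
  ∀ x y, x ≠ y → c x = c y → ∀ e ∈ S, Hit e (φ x) (φ y)

/-- concatenation of `b` blocks -/
def pw {n : ℕ} {X ι : Type} (b : ℕ) (φ : X → ι → Fin n) (x : Fin b → X) (q : Fin b × ι) : Fin n :=
  φ (x q.1) q.2

/-- the linked colouring -/
def comb {X : Type} {M b : ℕ} (c1 c2 : X → ZMod M) (x : Fin b → X) (j : Fin (b + 1)) : ZMod M :=
  (if h : (j : ℕ) < b then c1 (x ⟨j, h⟩) else 0) -
    (if h : 0 < (j : ℕ) then c2 (x ⟨j - 1, by omega⟩) else 0)

theorem comb_proper {n : ℕ} {X ι : Type} {M b : ℕ} {φ : X → ι → Fin n}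
    {S1 S2 : Finset (Fin n × Fin n)} {c1 c2 : X → ZMod M} (h1 : Proper φ S1 c1)
    (h2 : Proper φ S2 c2) : Proper (pw b φ) (S1 ∪ S2) (comb (b := b) c1 c2) := by
  classical
  intro x y hxy hc e he
  have hne : (univ.filter fun j => x j ≠ y j).Nonempty := by
    by_contra h
    apply hxy
    funext j
    by_contra hj
    exact h ⟨j, by simp [hj]⟩
  rcases mem_union.1 he with he | he
  · obtain ⟨j, hj, hmin⟩ := exists_min_image _ (fun j => j) hne
    rw [mem_filter] at hj
    have hj' := congrFun hc j.castSucc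
    have e1 : ∀ z : Fin b → X, comb c1 c2 z j.castSucc = c1 (z j) -
        (if h : 0 < (j : ℕ) then c2 (z ⟨j - 1, by omega⟩) else 0) := by
      intro z
      simp [comb]
    rw [e1, e1] at hj'
    have e2 : (if h : 0 < (j : ℕ) then c2 (x ⟨j - 1, by omega⟩) else 0) =
        (if h : 0 < (j : ℕ) then c2 (y ⟨j - 1, by omega⟩) else 0) := by
      split_ifs with h
      · have : x ⟨j - 1, by omega⟩ = y ⟨j - 1, by omega⟩ := by
          by_contra hcon
          have := hmin ⟨j - 1, by omega⟩ (by simp [hcon])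
          rw [Fin.le_def] at this
          simp only at this
          omega
        rw [this]
      · rfl
    rw [e2] at hj'
    obtain ⟨i, hi⟩ := h1 _ _ hj.2 (sub_left_injective hj') e he
    exact ⟨(j, i), hi⟩
  · obtain ⟨j, hj, hmax⟩ := exists_max_image _ (fun j => j) hne
    rw [mem_filter] at hj
    have hj' := congrFun hc j.succ
    have e1 : ∀ z : Fin b → X, comb c1 c2 z j.succ =
        (if h : (j : ℕ) + 1 < b then c1 (z ⟨j + 1, h⟩) else 0) - c2 (z j) := by
      intro z
      simp [comb]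
    rw [e1, e1] at hj'
    have e2 : (if h : (j : ℕ) + 1 < b then c1 (x ⟨j + 1, h⟩) else 0) =
        (if h : (j : ℕ) + 1 < b then c1 (y ⟨j + 1, h⟩) else 0) := by
      split_ifs with h
      · have : x ⟨j + 1, h⟩ = y ⟨j + 1, h⟩ := by
          by_contra hcon
          have := hmax ⟨j + 1, h⟩ (by simp [hcon])
          rw [Fin.le_def] at this
          simp only at this
          omega
        rw [this]
      · rfl
    rw [e2] at hj'
    obtain ⟨i, hi⟩ := h2 _ _ hj.2 (sub_right_injective hj') e he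
    exact ⟨(j, i), hi⟩

/-- colourings for `S` and for every single pair, with `M` colours each -/
structure Sys (n : ℕ) (X ι : Type) (φ : X → ι → Fin n) (M : ℕ) (S : Finset (Fin n × Fin n)) :
    Prop where
  main : ∃ c : X → ZMod M, Proper φ S c
  each : ∀ e : Fin n × Fin n, e.1 ≠ e.2 → ∃ c : X → ZMod M, Proper φ {e} c

theorem exists_recolour (M b : ℕ) (hM : 0 < M) :
    ∃ f : (Fin (b + 1) → ZMod M) → ZMod (M ^ (b + 1)), Function.Injective f := by
  haveI : NeZero M := ⟨hM.ne'⟩
  haveI : NeZero (M ^ (b + 1)) := ⟨(pow_pos hM _).ne'⟩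
  have h : Fintype.card (Fin (b + 1) → ZMod M) ≤ Fintype.card (ZMod (M ^ (b + 1))) := by
    rw [Fintype.card_fun, ZMod.card, ZMod.card, Fintype.card_fin]
  obtain ⟨f⟩ := Function.Embedding.nonempty_of_card_le h
  exact ⟨f, f.injective⟩

theorem Proper.comp {n : ℕ} {X ι K K' : Type} {φ : X → ι → Fin n} {S : Finset (Fin n × Fin n)}
    {c : X → K} (h : Proper φ S c) {f : K → K'} (hf : Function.Injective f) :
    Proper φ S (f ∘ c) :=
  fun x y hxy hc => h x y hxy (hf hc)

theorem Sys.step {n : ℕ} {X ι : Type} {φ : X → ι → Fin n} {M : ℕ} {S : Finset (Fin n × Fin n)}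
    (h : Sys n X ι φ M S) (hM : 0 < M) (b : ℕ) {e : Fin n × Fin n} (he : e.1 ≠ e.2) :
    Sys n (Fin b → X) (Fin b × ι) (pw b φ) (M ^ (b + 1)) (insert e S) := by
  obtain ⟨f, hf⟩ := exists_recolour M b hM
  constructor
  · obtain ⟨c1, h1⟩ := h.main
    obtain ⟨c2, h2⟩ := h.each e he
    have := (comb_proper (b := b) h2 h1).comp hf
    rw [← insert_eq] at this
    exact ⟨_, this⟩
  · intro e' he'
    obtain ⟨c, h1⟩ := h.each e' he'
    have := (comb_proper (b := b) h1 h1).comp hf
    rw [union_self] at this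
    exact ⟨_, this⟩

theorem Sys.iterate {n : ℕ} {X ι : Type} [Fintype X] [Fintype ι] {φ : X → ι → Fin n} {M : ℕ}
    (h : Sys n X ι φ M ∅) (hM : 0 < M) (b : ℕ) (S : Finset (Fin n × Fin n))
    (hS : ∀ e ∈ S, e.1 ≠ e.2) :
    ∃ (X' ι' : Type) (_ : Fintype X') (_ : Fintype ι') (φ' : X' → ι' → Fin n),
      Fintype.card X' = Fintype.card X ^ (b ^ S.card) ∧
      Fintype.card ι' = b ^ S.card * Fintype.card ι ∧
      Sys n X' ι' φ' (M ^ ((b + 1) ^ S.card)) S := by
  classical
  induction S using Finset.induction_on with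
  | empty =>
    refine ⟨X, ι, inferInstance, inferInstance, φ, by simp, by simp, by simpa using h⟩
  | insert e S he ih =>
    obtain ⟨X', ι', _, _, φ', h1, h2, h3⟩ := ih fun e' he' => hS e' (mem_insert_of_mem he')
    refine ⟨Fin b → X', Fin b × ι', inferInstance, inferInstance, pw b φ', ?_, ?_, ?_⟩
    · rw [Fintype.card_fun, Fintype.card_fin, h1, card_insert_of_notMem he, pow_succ, pow_mul]
    · rw [Fintype.card_prod, Fintype.card_fin, h2, card_insert_of_notMem he, pow_succ]
      ring
    · have := h3.step (pow_pos hM _) b (hS e (mem_insert_self _ _))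
      rw [card_insert_of_notMem he, pow_succ, pow_mul]
      exact this

/-- a code: `Q` words of length `L` any two of which hit all pairs of different letters -/
def Code (n L Q : ℕ) : Prop :=
  ∃ f : Fin Q → Fin L → Fin n, ∀ a b, a ≠ b → ∀ e : Fin n × Fin n, e.1 ≠ e.2 → Hit e (f a) (f b)

theorem Sys.code {n : ℕ} {X ι : Type} [Fintype X] [Fintype ι] {φ : X → ι → Fin n} {M : ℕ}
    (hM : 0 < M) (h : Sys n X ι φ M (univ.filter fun e => e.1 ≠ e.2)) :
    ∃ Q : ℕ, Fintype.card X ≤ Q * M ∧ Code n (Fintype.card ι) Q := by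
  classical
  haveI : NeZero M := ⟨hM.ne'⟩
  obtain ⟨c, hc⟩ := h.main
  -- the largest colour class
  obtain ⟨k, -, hk⟩ := exists_max_image (univ : Finset (ZMod M))
    (fun k => (univ.filter fun x => c x = k).card) ⟨0, mem_univ _⟩
  set Q := (univ.filter fun x => c x = k).card with hQ
  refine ⟨Q, ?_, ?_⟩
  · have h1 : Fintype.card X = ∑ k' : ZMod M, (univ.filter fun x => c x = k').card := by
      rw [← card_univ]
      exact card_eq_sum_card_fiberwise (fun x _ => mem_univ (c x))
    rw [h1]
    calc ∑ k' : ZMod M, (univ.filter fun x => c x = k').card ≤ ∑ k' : ZMod M, Q :=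
          sum_le_sum fun k' _ => hk k' (mem_univ _)
      _ = Q * M := by rw [sum_const, card_univ, ZMod.card, smul_eq_mul, mul_comm]
  · have e1 : (univ.filter fun x => c x = k) ≃ Fin Q := Finset.equivFin _
    have e2 : ι ≃ Fin (Fintype.card ι) := Fintype.equivFin ι
    refine ⟨fun a i => φ (e1.symm a).1 (e2.symm i), ?_⟩
    intro a b hab e he
    have hne : ((e1.symm a).1 : X) ≠ (e1.symm b).1 := by
      intro h
      exact hab (e1.symm.injective (Subtype.ext h))
    have ha : c (e1.symm a).1 = k := (mem_filter.1 (e1.symm a).2).2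
    have hb : c (e1.symm b).1 = k := (mem_filter.1 (e1.symm b).2).2
    obtain ⟨i, hi⟩ := hc _ _ hne (ha.trans hb.symm) e (by simp [he])
    exact ⟨e2 i, by simpa using hi⟩

end Pool.Agent.Z45.PM
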