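import Mathlib
import Pool.Agent.Z45.PM.Col

set_option autoImplicit false

/-!
The base system of words in which every letter is used equally often.
-/

namespace Pool.Agent.Z45.PM

open Finset

/-- words on the positions `Fin n × Fin s` in which every letter is used exactly `s` times -/
def Bal (n s : ℕ) : Type :=
  {w : Fin n × Fin s → Fin n // ∀ a, (univ.filter fun q => w q = a).card = s}

instance (n s : ℕ) : DecidableEq (Bal n s) :=
  inferInstanceAs (DecidableEq {w : Fin n × Fin s → Fin n //
    ∀ a, (univ.filter fun q => w q = a).card = s})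

instance (n s : ℕ) : Fintype (Bal n s) :=
  inferInstanceAs (Fintype {w : Fin n × Fin s → Fin n //
    ∀ a, (univ.filter fun q => w q = a).card = s})

/-- the word of a balanced word -/
def wd {n s : ℕ} (x : Bal n s) : Fin n × Fin s → Fin n := x.1

theorem wd_injective {n s : ℕ} : Function.Injective (wd (n := n) (s := s)) :=
  Subtype.val_injective

theorem card_bal_le (n s : ℕ) : Fintype.card (Bal n s) ≤ n ^ (n * s) := by
  have h := Fintype.card_le_of_injective _ (wd_injective (n := n) (s := s))
  rw [Fintype.card_fun, Fintype.card_fin, Fintype.card_prod, Fintype.card_fin,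
    Fintype.card_fin] at h
  exact h

/-- the standard balanced word -/
def stdBal (n s : ℕ) : Bal n s :=
  ⟨fun q => q.1, by
    intro a
    have : (univ.filter fun q : Fin n × Fin s => q.1 = a) = ({a} : Finset (Fin n)) ×ˢ univ := by
      ext q
      simp only [mem_filter, mem_univ, true_and, mem_product, mem_singleton, and_true]
    rw [this, card_product, card_singleton, card_univ, Fintype.card_fin, one_mul]⟩

/-- merging the letter `j` into the letter `i` -/
def mrg {n : ℕ} (e : Fin n × Fin n) (a : Fin n) : Fin n := if a = e.2 then e.1 else a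

/-- the word with `j` merged into `i` -/
def mw {n s : ℕ} (e : Fin n × Fin n) (x : Bal n s) : Fin n × Fin s → Fin n :=
  fun q => mrg e (wd x q)

theorem mw_proper {n s : ℕ} (e : Fin n × Fin n) (he : e.1 ≠ e.2) :
    Proper (wd (n := n) (s := s)) {e} (mw e) := by
  intro x y hxy hc e' he'
  rw [mem_singleton] at he'
  subst he'
  by_contra hno
  apply hxy
  apply wd_injective
  have hpt : ∀ q, mrg e' (wd x q) = mrg e' (wd y q) := fun q => congrFun hc q
  have hsub : (univ.filter fun q => wd x q = e'.1) ⊆ univ.filter fun q => wd y q = e'.1 := by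
    intro q hq
    rw [mem_filter] at hq ⊢
    refine ⟨mem_univ _, ?_⟩
    by_contra h
    have h1 := hpt q
    unfold mrg at h1
    rw [hq.2, if_neg he] at h1
    split_ifs at h1 with h2
    · exact hno ⟨q, hq.2, h2⟩
    · exact h h1.symm
  have heq := eq_of_subset_of_card_le hsub (by
    rw [show (univ.filter fun q => wd x q = e'.1).card = s from x.2 e'.1,
      show (univ.filter fun q => wd y q = e'.1).card = s from y.2 e'.1])
  funext q
  have h1 := hpt q
  unfold mrg at h1
  by_cases hx : wd x q = e'.1
  · have : q ∈ univ.filter fun q => wd y q = e'.1 := by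
      rw [← heq]
      simp [hx]
    rw [mem_filter] at this
    rw [hx, this.2]
  · have hy : wd y q ≠ e'.1 := by
      intro hy
      have : q ∈ univ.filter fun q => wd x q = e'.1 := by
        rw [heq]
        simp [hy]
      rw [mem_filter] at this
      exact hx this.2
    split_ifs at h1 with h2 h3 h3
    · rw [h2, h3]
    · exact absurd h1.symm hy
    · exact absurd h1 hx
    · exact h1

/-- the positions with the letters `i`, `j` -/
def pos2 {n s : ℕ} (e : Fin n × Fin n) (x : Bal n s) : Finset (Fin n × Fin s) :=
  (univ.filter fun q => wd x q = e.1) ∪ (univ.filter fun q => wd x q = e.2)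

theorem card_pos2 {n s : ℕ} (e : Fin n × Fin n) (he : e.1 ≠ e.2) (x : Bal n s) :
    (pos2 e x).card = 2 * s := by
  unfold pos2
  rw [card_union_of_disjoint, show (univ.filter fun q => wd x q = e.1).card = s from x.2 e.1,
      show (univ.filter fun q => wd x q = e.2).card = s from x.2 e.2, two_mul]
  rw [disjoint_left]
  intro q h1 h2
  rw [mem_filter] at h1 h2
  exact he (h1.2.symm.trans h2.2)

/-- a new word with `i` on `T`, `j` on the other positions -/
def swp {n s : ℕ} (e : Fin n × Fin n) (x : Bal n s) (T : Finset (Fin n × Fin s))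
    (q : Fin n × Fin s) : Fin n :=
  if q ∈ T then e.1 else if q ∈ pos2 e x then e.2 else wd x q

theorem mem_pos2 {n s : ℕ} {e : Fin n × Fin n} {x : Bal n s} {q : Fin n × Fin s} :
    q ∈ pos2 e x ↔ wd x q = e.1 ∨ wd x q = e.2 := by
  unfold pos2
  simp

theorem swp_bal {n s : ℕ} (e : Fin n × Fin n) (he : e.1 ≠ e.2) (x : Bal n s)
    (T : Finset (Fin n × Fin s)) (hT : T ⊆ pos2 e x) (hc : T.card = s) (a : Fin n) :
    (univ.filter fun q => swp e x T q = a).card = s := by
  by_cases h1 : a = e.1
  · have : (univ.filter fun q => swp e x T q = a) = T := by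
      ext q
      rw [mem_filter]
      unfold swp
      constructor
      · rintro ⟨-, h⟩
        by_contra hq
        rw [if_neg hq] at h
        split_ifs at h with h2
        · exact he (h1 ▸ h.symm)
        · exact h2 (mem_pos2.2 (Or.inl (h.trans h1)))
      · intro hq
        exact ⟨mem_univ _, by rw [if_pos hq, h1]⟩
    rw [this, hc]
  · by_cases h2 : a = e.2
    · have : (univ.filter fun q => swp e x T q = a) = pos2 e x \ T := by
        ext q
        rw [mem_filter, mem_sdiff]
        unfold swp
        constructor
        · rintro ⟨-, h⟩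
          split_ifs at h with h3 h4
          · exact absurd h.symm h1
          · exact ⟨h4, h3⟩
          · exact absurd (mem_pos2.2 (Or.inr (h.trans h2))) h4
        · rintro ⟨h3, h4⟩
          exact ⟨mem_univ _, by rw [if_neg h4, if_pos h3, h2]⟩
      rw [this, card_sdiff_of_subset hT, card_pos2 e he, hc]
      omega
    · have : (univ.filter fun q => swp e x T q = a) = univ.filter fun q => wd x q = a := by
        ext q
        rw [mem_filter, mem_filter]
        unfold swp
        constructor
        · rintro ⟨-, h⟩
          split_ifs at h with h3 h4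
          · exact absurd h.symm h1
          · exact absurd h.symm h2
          · exact ⟨mem_univ _, h⟩
        · rintro ⟨-, h⟩
          have h3 : q ∉ pos2 e x := by
            rw [mem_pos2]
            rintro (h3 | h3)
            · exact h1 (h.symm.trans h3)
            · exact h2 (h.symm.trans h3)
          exact ⟨mem_univ _, by rw [if_neg (fun h4 => h3 (hT h4)), if_neg h3, h]⟩
      rw [this]
      exact x.2 a

theorem mrg_swp {n s : ℕ} (e : Fin n × Fin n) (x : Bal n s)
    (T : Finset (Fin n × Fin s)) (hT : T ⊆ pos2 e x) (q : Fin n × Fin s) :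
    mrg e (swp e x T q) = mrg e (wd x q) := by
  by_cases h : q ∈ pos2 e x
  · have h1 : mrg e (wd x q) = e.1 := by
      unfold mrg
      rcases mem_pos2.1 h with h2 | h2
      · rw [h2]
        split_ifs <;> rfl
      · rw [h2, if_pos rfl]
    rw [h1]
    unfold swp mrg
    split_ifs <;> first | rfl | contradiction
  · have : swp e x T q = wd x q := by
      unfold swp
      rw [if_neg (fun h4 => h (hT h4)), if_neg h]
    rw [this]

theorem fiber_large {n s : ℕ} (e : Fin n × Fin n) (he : e.1 ≠ e.2) (x : Bal n s) :
    Nat.centralBinom s ≤ (univ.filter fun y : Bal n s => mw e y = mw e x).card := by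
  classical
  have h : ((pos2 e x).powersetCard s).card = Nat.centralBinom s := by
    rw [card_powersetCard, card_pos2 e he, Nat.centralBinom]
  rw [← h]
  refine card_le_card_of_surjOn (fun y : Bal n s => univ.filter fun q => wd y q = e.1) ?_
  intro T hT
  rw [mem_coe, mem_powersetCard] at hT
  obtain ⟨y, hy⟩ : ∃ y : Bal n s, wd y = swp e x T :=
    ⟨⟨swp e x T, swp_bal e he x T hT.1 hT.2⟩, rfl⟩
  refine ⟨y, ?_, ?_⟩
  · rw [mem_coe, mem_filter]
    refine ⟨mem_univ _, ?_⟩
    funext q
    unfold mw
    rw [hy]
    exact mrg_swp e x T hT.1 q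
  · simp only [hy]
    change (univ.filter fun q => swp e x T q = e.1) = T
    ext q
    rw [mem_filter]
    unfold swp
    constructor
    · rintro ⟨-, h⟩
      by_contra hq
      rw [if_neg hq] at h
      split_ifs at h with h2
      · exact he h.symm
      · exact h2 (mem_pos2.2 (Or.inl h))
    · intro h
      exact ⟨mem_univ _, by rw [if_pos h]⟩

theorem image_small {n s : ℕ} (e : Fin n × Fin n) (he : e.1 ≠ e.2) :
    Nat.centralBinom s * (univ.image (mw (s := s) e)).card ≤ Fintype.card (Bal n s) := by
  classical
  rw [← card_univ]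
  have H : ∀ z ∈ univ.image (mw (s := s) e),
      Nat.centralBinom s ≤ (univ.filter fun y : Bal n s => mw e y = z).card := ?_
  · exact mul_card_image_le_card _ _ H
  intro z hz
  obtain ⟨x, -, rfl⟩ := mem_image.1 hz
  exact fiber_large e he x

theorem base_sys {n : ℕ} (hn : 2 ≤ n) (s : ℕ) :
    ∃ M : ℕ, 0 < M ∧ M * Nat.centralBinom s ≤ Fintype.card (Bal n s) ∧ M ≤ n ^ (n * s) ∧
      Sys n (Bal n s) (Fin n × Fin s) wd M ∅ := by
  classical
  set M := Fintype.card (Bal n s) / Nat.centralBinom s with hM
  have hle : ∀ e : Fin n × Fin n, e.1 ≠ e.2 → (univ.image (mw (s := s) e)).card ≤ M := by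
    intro e he
    rw [hM, Nat.le_div_iff_mul_le (Nat.centralBinom_pos s), mul_comm]
    exact image_small e he
  have hpos : 0 < M := by
    refine lt_of_lt_of_le ?_ (hle (⟨0, by omega⟩, ⟨1, by omega⟩) (by simp))
    rw [card_pos]
    exact ⟨_, mem_image_of_mem _ (mem_univ (stdBal n s))⟩
  haveI : NeZero M := ⟨hpos.ne'⟩
  refine ⟨M, hpos, ?_, ?_, ?_, ?_⟩
  · rw [hM]
    exact Nat.div_mul_le_self _ _
  · exact (Nat.div_le_self _ _).trans (card_bal_le n s)
  · exact ⟨fun _ => 0, fun x y _ _ e he => absurd he (notMem_empty _)⟩
  · intro e he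
    have h : Fintype.card (univ.image (mw (s := s) e)) ≤ Fintype.card (ZMod M) := by
      rw [Fintype.card_coe, ZMod.card]
      exact hle e he
    obtain ⟨f⟩ := Function.Embedding.nonempty_of_card_le h
    refine ⟨fun x => f ⟨mw e x, mem_image_of_mem _ (mem_univ x)⟩, ?_⟩
    intro x y hxy hc
    refine mw_proper e he x y hxy ?_
    have := f.injective hc
    exact congrArg Subtype.val this

end Pool.Agent.Z45.PM
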