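import Mathlib
import Pool.Agent.Z45.PM.Base

set_option autoImplicit false

/-!
Codes of rate close to `2 / n`.
-/

namespace Pool.Agent.Z45.PM

open Finset Filter Topology

theorem code_param {n : ℕ} (hn : 2 ≤ n) (s b : ℕ) :
    ∃ Q d M : ℕ, d = (univ.filter fun e : Fin n × Fin n => e.1 ≠ e.2).card ∧ 0 < M ∧
      M ≤ n ^ (n * s) ∧
      (M * Nat.centralBinom s) ^ (b ^ d) ≤ Q * M ^ ((b + 1) ^ d) ∧
      Code n (b ^ d * (n * s)) Q := by
  obtain ⟨M, hM, hMC, hMn, hsys⟩ := base_sys hn s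
  set S := univ.filter fun e : Fin n × Fin n => e.1 ≠ e.2 with hS
  obtain ⟨X', ι', _, _, φ', h1, h2, h3⟩ := hsys.iterate hM b S (by
    intro e he
    rw [hS, mem_filter] at he
    exact he.2)
  obtain ⟨Q, hQ1, hQ2⟩ := h3.code (pow_pos hM _)
  refine ⟨Q, S.card, M, rfl, hM, hMn, ?_, ?_⟩
  · refine le_trans ?_ hQ1
    rw [h1]
    exact Nat.pow_le_pow_left hMC _
  · rw [h2, Fintype.card_prod, Fintype.card_fin, Fintype.card_fin] at hQ2
    exact hQ2

/-- the rate bound -/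
theorem rate_bound {n : ℕ} (hn : 2 ≤ n) {s b : ℕ} (hs : 0 < s) (hb : 0 < b) :
    ∃ Q L : ℕ, 0 < Q ∧ 0 < L ∧ Code n L Q ∧
      2 / (n : ℝ) - Real.logb 2 (2 * s) / (n * s) -
        ((1 + 1 / (b : ℝ)) ^ (univ.filter fun e : Fin n × Fin n => e.1 ≠ e.2).card - 1) *
          Real.logb 2 n ≤ Real.logb 2 Q / L := by
  obtain ⟨Q, d, M, hd, hM, hMn, hQ, hcode⟩ := code_param hn s b
  rw [← hd]
  have hC : 0 < Nat.centralBinom s := Nat.centralBinom_pos s
  have hQ0 : 0 < Q := by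
    rcases Nat.eq_zero_or_pos Q with h | h
    · rw [h, zero_mul] at hQ
      have := pow_pos (Nat.mul_pos hM hC) (b ^ d)
      omega
    · exact h
  have hbd : 0 < b ^ d := pow_pos hb d
  have hL : 0 < b ^ d * (n * s) := Nat.mul_pos hbd (Nat.mul_pos (by omega) hs)
  refine ⟨Q, b ^ d * (n * s), hQ0, hL, hcode, ?_⟩
  have hMr : (0 : ℝ) < M := by exact_mod_cast hM
  have hCr : (0 : ℝ) < Nat.centralBinom s := by exact_mod_cast hC
  have hQr : (0 : ℝ) < Q := by exact_mod_cast hQ0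
  have hsr : (0 : ℝ) < s := by exact_mod_cast hs
  have hbr : (0 : ℝ) < b := by exact_mod_cast hb
  have hnr : (0 : ℝ) < n := by
    have : 0 < n := by omega
    exact_mod_cast this
  -- logarithms
  have h1 : (b : ℝ) ^ d * (Real.logb 2 M + Real.logb 2 (Nat.centralBinom s)) ≤
      Real.logb 2 Q + ((b : ℝ) + 1) ^ d * Real.logb 2 M := by
    have h2 : ((M : ℝ) * Nat.centralBinom s) ^ (b ^ d) ≤ Q * (M : ℝ) ^ ((b + 1) ^ d) := by
      exact_mod_cast hQ
    have h3 := Real.logb_le_logb_of_le (by norm_num : (1 : ℝ) < 2) (by positivity) h2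
    rw [Real.logb_pow, Real.logb_mul hMr.ne' hCr.ne', Real.logb_mul hQr.ne' (by positivity),
      Real.logb_pow] at h3
    push_cast at h3
    exact h3
  have h4 : Real.logb 2 M ≤ n * s * Real.logb 2 n := by
    have h5 : (M : ℝ) ≤ (n : ℝ) ^ (n * s) := by exact_mod_cast hMn
    have h6 := Real.logb_le_logb_of_le (by norm_num : (1 : ℝ) < 2) hMr h5
    rw [Real.logb_pow] at h6
    push_cast at h6
    exact h6
  have h7 : 2 * (s : ℝ) ≤ Real.logb 2 (2 * s) + Real.logb 2 (Nat.centralBinom s) := by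
    have h8 := Nat.four_pow_le_two_mul_self_mul_centralBinom s hs
    have h9 : (4 : ℝ) ^ s ≤ 2 * s * Nat.centralBinom s := by exact_mod_cast h8
    have h10 := Real.logb_le_logb_of_le (by norm_num : (1 : ℝ) < 2) (by positivity) h9
    rw [Real.logb_mul (by positivity) hCr.ne', Real.logb_pow] at h10
    have h11 : Real.logb 2 4 = 2 := by
      rw [show (4 : ℝ) = 2 ^ (2 : ℕ) by norm_num, Real.logb_pow,
        Real.logb_self_eq_one (by norm_num)]
      norm_num
    rw [h11] at h10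
    linarith
  have hge : (0 : ℝ) ≤ ((b : ℝ) + 1) ^ d - (b : ℝ) ^ d := by
    have : (b : ℝ) ^ d ≤ ((b : ℝ) + 1) ^ d := pow_le_pow_left₀ hbr.le (by linarith) d
    linarith
  have h12 : (b : ℝ) ^ d * (2 * s - Real.logb 2 (2 * s)) -
      (((b : ℝ) + 1) ^ d - (b : ℝ) ^ d) * (n * s * Real.logb 2 n) ≤ Real.logb 2 Q := by
    have h13 := mul_le_mul_of_nonneg_left h4 hge
    have h14 : (b : ℝ) ^ d * (2 * s - Real.logb 2 (2 * s)) ≤
        (b : ℝ) ^ d * Real.logb 2 (Nat.centralBinom s) :=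
      mul_le_mul_of_nonneg_left (by linarith) (by positivity)
    nlinarith
  rw [le_div_iff₀ (by exact_mod_cast hL)]
  refine le_trans (le_of_eq ?_) h12
  push_cast
  have h15 : (1 + 1 / (b : ℝ)) ^ d = ((b : ℝ) + 1) ^ d / (b : ℝ) ^ d := by
    rw [← div_pow]
    congr 1
    field_simp
  rw [h15]
  have hbdr : (b : ℝ) ^ d ≠ 0 := by positivity
  field_simp

theorem exists_code {n : ℕ} (hn : 2 ≤ n) {δ : ℝ} (hδ : 0 < δ) :
    ∃ Q L : ℕ, 0 < Q ∧ 0 < L ∧ Code n L Q ∧ 2 / (n : ℝ) - δ < Real.logb 2 Q / L := by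
  have hnr : (0 : ℝ) < n := by
    have : 0 < n := by omega
    exact_mod_cast this
  set d := (univ.filter fun e : Fin n × Fin n => e.1 ≠ e.2).card with hd
  have t1 : Tendsto (fun s : ℕ => Real.logb 2 (2 * s) / (n * s)) atTop (𝓝 0) := by
    have h1 : Tendsto (fun x : ℝ => Real.log x / x) atTop (𝓝 0) := by
      have := Real.tendsto_pow_log_div_mul_add_atTop 1 0 1 one_ne_zero
      simpa using this
    have h2 : Tendsto (fun s : ℕ => 2 * (s : ℝ)) atTop atTop :=
      Tendsto.const_mul_atTop (by norm_num) tendsto_natCast_atTop_atTop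
    have h3 := (h1.comp h2).const_mul (2 / (Real.log 2 * n))
    rw [mul_zero] at h3
    refine h3.congr' ?_
    filter_upwards [eventually_gt_atTop 0] with s hs
    have hsr : (0 : ℝ) < s := by exact_mod_cast hs
    have hl : 0 < Real.log 2 := Real.log_pos (by norm_num)
    simp only [Function.comp]
    rw [Real.logb]
    field_simp
  have t2 : Tendsto (fun b : ℕ => ((1 + 1 / (b : ℝ)) ^ d - 1) * Real.logb 2 n) atTop (𝓝 0) := by
    have h1 : Tendsto (fun b : ℕ => 1 / (b : ℝ)) atTop (𝓝 0) := tendsto_one_div_atTop_nhds_zero_nat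
    have h2 := (((h1.const_add 1).pow d).sub_const 1).mul_const (Real.logb 2 n)
    simpa using h2
  obtain ⟨s, hs1, hs2⟩ := ((t1.eventually (gt_mem_nhds (half_pos hδ))).and
    (eventually_gt_atTop 0)).exists
  obtain ⟨b, hb1, hb2⟩ := ((t2.eventually (gt_mem_nhds (half_pos hδ))).and
    (eventually_gt_atTop 0)).exists
  obtain ⟨Q, L, hQ, hL, hc, hr⟩ := rate_bound hn hs2 hb2
  refine ⟨Q, L, hQ, hL, hc, ?_⟩
  rw [← hd] at hr
  linarith

end Pool.Agent.Z45.PM
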